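import Pool.Agent.Helper22.CP.Sub

/-!
# Linear changes of the parameters (swarm CP, part ST1)
-/

set_option autoImplicit false

namespace Pool.Agent.Helper22.CP.ST1

open MvPolynomial Pool.Agent.Helper19.CP Pool.Agent.Helper22.CP

lemma lf_hom {m : ℕ} (φ : Matrix (Fin m) (Fin m) ℂ) (j : Fin m) : (lf φ j).IsHomogeneous 1 := by
  rw [lf]
  apply IsHomogeneous.sum
  intro l _
  have := (isHomogeneous_C (Fin m) (φ j l)).mul (isHomogeneous_X ℂ l)
  simpa using this

lemma aeval_hom {σ τ : Type} {e : ℕ} (H : MvPolynomial σ ℂ) (hH : H.IsHomogeneous e) (c : ℂ)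
    (G : σ → MvPolynomial τ ℂ) :
    aeval (fun i => C c * G i) H = C c ^ e * aeval G H := by
  rw [aeval_def, aeval_def, eval₂_eq, eval₂_eq, Finset.mul_sum]
  apply Finset.sum_congr rfl
  intro d hd
  have hdn : ∑ i ∈ d.support, d i = e := by
    have := hH (mem_support_iff.1 hd)
    rw [Finsupp.weight_apply] at this
    simpa [Finsupp.sum] using this
  have : ∏ i ∈ d.support, (C c * G i) ^ d i = C c ^ e * ∏ i ∈ d.support, G i ^ d i := by
    simp_rw [mul_pow]
    rw [Finset.prod_mul_distrib, Finset.prod_pow_eq_pow_sum, hdn]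
  rw [this]; ring

lemma aeval_sub {n m : ℕ} (φ : Matrix (Fin m) (Fin m) ℂ) (G : Fin n → MvPolynomial (Fin m) ℂ)
    (H : MvPolynomial (Fin n) ℂ) : aeval (fun i => sA φ (G i)) H = sA φ (aeval G H) := by
  have : (sA φ).comp (aeval G) = aeval (fun i => sA φ (G i)) := by
    apply algHom_ext
    intro i
    rw [AlgHom.comp_apply, aeval_X, aeval_X]
  exact (congrArg (fun f => f H) this).symm

theorem main : S_ST1 := by
  intro n D F G hF hG c φ hc hφ
  have hC : (C c : MvPolynomial (Fin (n + 1)) ℂ) ≠ 0 := by rwa [Ne, C_eq_zero]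
  refine ⟨?_, ?_, ?_, ?_⟩
  · intro i
    have h1 : (sA φ (G i)).IsHomogeneous (1 * D) := (hG.hom i).aeval _ (fun j => lf_hom φ j)
    have h2 := (isHomogeneous_C (Fin (n + 1)) c).mul h1
    rw [one_mul, zero_add] at h2
    exact h2
  · simp_rw [sA_eq]
    rw [aeval_hom F hF, aeval_sub, hG.zero, map_zero, mul_zero]
  · intro e H hH h0
    simp_rw [sA_eq] at h0
    rw [aeval_hom H hH, aeval_sub, mul_eq_zero] at h0
    rcases h0 with h0 | h0
    · exact absurd h0 (pow_ne_zero _ hC)
    · apply hG.dom e H hH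
      exact sA_injective hφ (by rw [h0, map_zero])
  · -- the ratios
    set G' : Tuple n := fun i => C c * subst φ (G i) with hG'
    have hgen : ∀ i j, Fr φ hφ (algebraMap _ (Rat (n + 1)) (G i) /
        algebraMap _ (Rat (n + 1)) (G j)) = algebraMap _ (Rat (n + 1)) (G' i) /
        algebraMap _ (Rat (n + 1)) (G' j) := by
      intro i j
      rw [map_div₀, Fr_algebraMap, Fr_algebraMap, hG']
      simp only [map_mul, sA_eq]
      rw [mul_div_mul_left]
      rw [Ne, map_eq_zero_iff _ toR_injective]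
      exact hC
    have hmem : ∀ z ∈ ratios G, Fr φ hφ z ∈ ratios G' := by
      intro z hz
      refine IntermediateField.adjoin_induction (F := ℂ) (p := fun z _ => Fr φ hφ z ∈ ratios G')
        ?_ ?_ ?_ ?_ ?_ hz
      · rintro z ⟨i, j, rfl⟩
        rw [hgen]
        exact IntermediateField.subset_adjoin _ _ ⟨i, j, rfl⟩
      · intro x
        rw [AlgHom.commutes]
        exact IntermediateField.algebraMap_mem _ _
      · intro x y _ _ hx hy
        rw [map_add]
        exact add_mem hx hy
      · intro x _ hx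
        rw [map_inv₀]
        exact inv_mem hx
      · intro x y _ _ hx hy
        rw [map_mul]
        exact mul_mem hx hy
    set v : Fin (n + 1) → Rat (n + 1) := fun k => algebraMap _ (Rat (n + 1)) (lf φ k) /
      algebraMap _ (Rat (n + 1)) (lf φ 0) with hv
    have hvm : ∀ k, v k ∈ ratios G' := by
      intro k
      have h1 := hmem _ (hG.bir k 0)
      rw [map_div₀, Fr_algebraMap, Fr_algebraMap, sA_X, sA_X] at h1
      exact h1
    have h00 : algebraMap (MvPolynomial (Fin (n + 1)) ℂ) (Rat (n + 1)) (lf φ 0) ≠ 0 := by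
      rw [Ne, map_eq_zero_iff _ toR_injective]
      exact lf_ne_zero hφ 0
    have hX : ∀ i : Fin (n + 1), algebraMap (MvPolynomial (Fin (n + 1)) ℂ) (Rat (n + 1)) (X i) /
        algebraMap _ (Rat (n + 1)) (lf φ 0) = ∑ k, algebraMap ℂ (Rat (n + 1)) (φ⁻¹ i k) * v k := by
      intro i
      have h1 : (X i : MvPolynomial (Fin (n + 1)) ℂ) = ∑ k, C (φ⁻¹ i k) * lf φ k := by
        have h2 : sA φ (lf φ⁻¹ i) = X i := by
          rw [sA_lf, Matrix.nonsing_inv_mul _ (isUnit_iff_ne_zero.2 hφ), lf_one]
        rw [← h2, lf, map_sum]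
        apply Finset.sum_congr rfl
        intro k _
        rw [map_mul, sA_X]
        congr 1
        rw [sA, aeval_C, algebraMap_eq]
      conv_lhs => rw [h1]
      rw [map_sum, Finset.sum_div]
      apply Finset.sum_congr rfl
      intro k _
      rw [map_mul, hv, mul_div_assoc]
      rfl
    have hXm : ∀ i : Fin (n + 1), algebraMap (MvPolynomial (Fin (n + 1)) ℂ) (Rat (n + 1)) (X i) /
        algebraMap _ (Rat (n + 1)) (lf φ 0) ∈ ratios G' := by
      intro i
      rw [hX i]
      exact sum_mem fun k _ => mul_mem (IntermediateField.algebraMap_mem _ _) (hvm k)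
    intro i j
    have h1 := div_mem (hXm i) (hXm j)
    rwa [div_div_div_cancel_right₀ h00] at h1

end Pool.Agent.Helper22.CP.ST1
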