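import Pool.Agent.Helper22.CP.Sub

/-!
# Uniqueness of the linear substitution (swarm CP, part UNI)
-/

set_option autoImplicit false

namespace Pool.Agent.Helper22.CP.UNI

open MvPolynomial Pool.Agent.Helper19.CP Pool.Agent.Helper22.CP

/-- matrices with parallel values are proportional -/
lemma parallel {m : ℕ} [NeZero m] {φ φ' : Matrix (Fin m) (Fin m) ℂ} (h : φ.det ≠ 0)
    (h' : φ'.det ≠ 0) (hp : ∀ i j (y : Fin m → ℂ),
      (φ.mulVec y) i * (φ'.mulVec y) j = (φ'.mulVec y) i * (φ.mulVec y) j) :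
    ∃ μ : ℂ, μ ≠ 0 ∧ φ' = μ • φ := by
  classical
  set A : Matrix (Fin m) (Fin m) ℂ := φ' * φ⁻¹ with hA
  have hu : IsUnit φ.det := isUnit_iff_ne_zero.2 h
  have hAφ : A * φ = φ' := by
    rw [hA, Matrix.mul_assoc, Matrix.nonsing_inv_mul _ hu, Matrix.mul_one]
  have hz : ∀ i j (z : Fin m → ℂ), z i * (A.mulVec z) j = (A.mulVec z) i * z j := by
    intro i j z
    have h1 := hp i j (φ⁻¹.mulVec z)
    rw [Matrix.mulVec_mulVec, Matrix.mulVec_mulVec, Matrix.mul_nonsing_inv _ hu,
      Matrix.one_mulVec] at h1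
    exact h1
  have hoff : ∀ j k, j ≠ k → A j k = 0 := by
    intro j k hjk
    have h1 := hz k j (Pi.single k 1)
    rw [Pi.single_eq_same, Matrix.mulVec_single_one, Pi.single_eq_of_ne hjk] at h1
    simpa using h1
  have hdiag : ∀ k l, A k k = A l l := by
    intro k l
    by_cases hkl : k = l
    · rw [hkl]
    · have h1 := hz k l (Pi.single k 1 + Pi.single l 1)
      rw [Matrix.mulVec_add, Matrix.mulVec_single_one, Matrix.mulVec_single_one] at h1
      simp only [Pi.add_apply, Matrix.col_apply, Pi.single_eq_same,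
        Pi.single_eq_of_ne hkl, Pi.single_eq_of_ne (Ne.symm hkl), hoff l k (Ne.symm hkl),
        hoff k l hkl] at h1
      simpa using h1.symm
  set μ := A 0 0 with hμ
  have hAμ : A = μ • (1 : Matrix (Fin m) (Fin m) ℂ) := by
    ext j k
    by_cases hjk : j = k
    · subst hjk
      rw [Matrix.smul_apply, Matrix.one_apply_eq, hdiag j 0]
      simp [hμ]
    · rw [hoff j k hjk, Matrix.smul_apply, Matrix.one_apply_ne hjk, smul_zero]
  have hφ' : φ' = μ • φ := by
    rw [← hAφ, hAμ, Matrix.smul_mul, Matrix.one_mul]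
  refine ⟨μ, ?_, hφ'⟩
  intro h0
  apply h'
  have : Nonempty (Fin m) := ⟨0⟩
  rw [hφ', h0, zero_smul]
  exact Matrix.det_zero

theorem main : S_UNI := by
  intro n D F G hG c c' φ φ' hc hc' hφ hφ' heq
  have hgen : ∀ i j, Fr φ hφ (algebraMap _ (Rat (n + 1)) (G i) / algebraMap _ (Rat (n + 1)) (G j))
      = Fr φ' hφ' (algebraMap _ (Rat (n + 1)) (G i) / algebraMap _ (Rat (n + 1)) (G j)) := by
    intro i j
    rw [map_div₀, map_div₀, Fr_algebraMap, Fr_algebraMap, Fr_algebraMap, Fr_algebraMap]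
    have e : ∀ i : Fin (n + 2), algebraMap (MvPolynomial (Fin (n + 1)) ℂ) (Rat (n + 1)) (sA φ (G i))
        = algebraMap (MvPolynomial (Fin (n + 1)) ℂ) (Rat (n + 1)) (C (c' / c)) *
          algebraMap (MvPolynomial (Fin (n + 1)) ℂ) (Rat (n + 1)) (sA φ' (G i)) := by
      intro i
      rw [← map_mul]
      congr 1
      have h1 := heq i
      rw [sA_eq, sA_eq] at h1
      calc sA φ (G i) = C c⁻¹ * (C c * sA φ (G i)) := by
            rw [← mul_assoc, ← C_mul, inv_mul_cancel₀ hc, C_1, one_mul]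
        _ = C (c' / c) * sA φ' (G i) := by
            rw [h1, ← mul_assoc, ← C_mul]
            congr 2
            rw [div_eq_mul_inv, mul_comm]
    rw [e i, e j]
    apply mul_div_mul_left
    rw [Ne, map_eq_zero_iff _ toR_injective, C_eq_zero]
    exact div_ne_zero hc' hc
  have hrat : ∀ z ∈ ratios G, Fr φ hφ z = Fr φ' hφ' z := by
    intro z hz
    refine IntermediateField.adjoin_induction (F := ℂ) (p := fun z _ => Fr φ hφ z = Fr φ' hφ' z)
      ?_ ?_ ?_ ?_ ?_ hz
    · rintro z ⟨i, j, rfl⟩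
      exact hgen i j
    · intro x
      rw [AlgHom.commutes, AlgHom.commutes]
    · intro x y _ _ hx hy
      rw [map_add, map_add, hx, hy]
    · intro x _ hx
      rw [map_inv₀, map_inv₀, hx]
    · intro x y _ _ hx hy
      rw [map_mul, map_mul, hx, hy]
  have hpar : ∀ i j : Fin (n + 1), lf φ i * lf φ' j = lf φ' i * lf φ j := by
    intro i j
    have h1 := hrat _ (hG.bir i j)
    rw [map_div₀, map_div₀, Fr_algebraMap, Fr_algebraMap, Fr_algebraMap, Fr_algebraMap,
      sA_X, sA_X, sA_X, sA_X, div_eq_div_iff, ← map_mul, ← map_mul] at h1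
    · exact toR_injective h1
    · rw [Ne, map_eq_zero_iff _ toR_injective]
      exact lf_ne_zero hφ j
    · rw [Ne, map_eq_zero_iff _ toR_injective]
      exact lf_ne_zero hφ' j
  apply parallel hφ hφ'
  intro i j y
  have h1 := congrArg (eval y) (hpar i j)
  rw [map_mul, map_mul, eval_lf, eval_lf, eval_lf, eval_lf] at h1
  exact h1

end Pool.Agent.Helper22.CP.UNI
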