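import Pool.Agent.Helper19.CP.Spec

/-!
# Linear substitutions and the field of rational functions (swarm CP)
-/

set_option autoImplicit false

namespace Pool.Agent.Helper22.CP

open MvPolynomial Pool.Agent.Helper19.CP

variable {m : ℕ}

/-- `subst φ` as a homomorphism -/
noncomputable def sA (φ : Matrix (Fin m) (Fin m) ℂ) :
    MvPolynomial (Fin m) ℂ →ₐ[ℂ] MvPolynomial (Fin m) ℂ :=
  aeval (fun j => ∑ l, C (φ j l) * X l)

lemma sA_eq (φ : Matrix (Fin m) (Fin m) ℂ) (p : MvPolynomial (Fin m) ℂ) : subst φ p = sA φ p :=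
  rfl

/-- the linear form -/
noncomputable def lf (φ : Matrix (Fin m) (Fin m) ℂ) (j : Fin m) : MvPolynomial (Fin m) ℂ :=
  ∑ l, C (φ j l) * X l

lemma sA_X (φ : Matrix (Fin m) (Fin m) ℂ) (j : Fin m) : sA φ (X j) = lf φ j := by
  rw [sA, aeval_X, lf]

lemma sA_lf (φ ψ : Matrix (Fin m) (Fin m) ℂ) (j : Fin m) :
    sA φ (lf ψ j) = lf (ψ * φ) j := by
  rw [lf, map_sum]
  have h1 : ∀ l, sA φ (C (ψ j l) * X l) = ∑ k, C (ψ j l * φ l k) * X k := by
    intro l
    rw [map_mul, sA_X, lf, Finset.mul_sum]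
    apply Finset.sum_congr rfl
    intro k _
    rw [sA, aeval_C, algebraMap_eq, ← mul_assoc, ← C_mul]
  simp_rw [h1]
  rw [Finset.sum_comm, lf]
  apply Finset.sum_congr rfl
  intro k _
  rw [← Finset.sum_mul, ← map_sum, Matrix.mul_apply]

lemma sA_comp (φ ψ : Matrix (Fin m) (Fin m) ℂ) : (sA φ).comp (sA ψ) = sA (ψ * φ) := by
  apply algHom_ext
  intro j
  rw [AlgHom.comp_apply, sA_X, sA_lf, sA_X]

lemma lf_one (j : Fin m) : lf (1 : Matrix (Fin m) (Fin m) ℂ) j = X j := by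
  rw [lf, Finset.sum_eq_single j]
  · rw [Matrix.one_apply_eq, C_1, one_mul]
  · intro k _ hk
    rw [Matrix.one_apply_ne hk.symm, C_0, zero_mul]
  · simp

lemma sA_one : sA (1 : Matrix (Fin m) (Fin m) ℂ) = AlgHom.id ℂ _ := by
  apply algHom_ext
  intro j
  rw [sA_X, lf_one, AlgHom.id_apply]

lemma sA_injective {φ : Matrix (Fin m) (Fin m) ℂ} (h : φ.det ≠ 0) :
    Function.Injective (sA φ) := by
  have h1 : (sA φ⁻¹).comp (sA φ) = AlgHom.id ℂ _ := by
    rw [sA_comp, Matrix.mul_nonsing_inv _ (isUnit_iff_ne_zero.2 h), sA_one]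
  intro p q hpq
  have h2 := congrArg (sA φ⁻¹) hpq
  have h3 : ∀ p, sA φ⁻¹ (sA φ p) = p := fun p => congrArg (fun f => f p) h1
  rwa [h3, h3] at h2

lemma toR_injective : Function.Injective (algebraMap (MvPolynomial (Fin m) ℂ) (Rat m)) :=
  IsFractionRing.injective _ _

lemma toR_comp_injective {φ : Matrix (Fin m) (Fin m) ℂ} (h : φ.det ≠ 0) :
    Function.Injective ((IsScalarTower.toAlgHom ℂ (MvPolynomial (Fin m) ℂ) (Rat m)).comp
      (sA φ)) := by
  rw [AlgHom.coe_comp]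
  exact toR_injective.comp (sA_injective h)

/-- the extension of `subst φ` to the rational functions -/
noncomputable def Fr (φ : Matrix (Fin m) (Fin m) ℂ) (h : φ.det ≠ 0) : Rat m →ₐ[ℂ] Rat m :=
  IsFractionRing.liftAlgHom (toR_comp_injective h)

lemma Fr_algebraMap (φ : Matrix (Fin m) (Fin m) ℂ) (h : φ.det ≠ 0)
    (p : MvPolynomial (Fin m) ℂ) :
    Fr φ h (algebraMap _ (Rat m) p) = algebraMap _ (Rat m) (sA φ p) := by
  rw [Fr, IsFractionRing.liftAlgHom_apply]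
  exact IsFractionRing.lift_algebraMap (toR_comp_injective h) p

lemma eval_lf (φ : Matrix (Fin m) (Fin m) ℂ) (j : Fin m) (y : Fin m → ℂ) :
    eval y (lf φ j) = (φ.mulVec y) j := by
  rw [lf, map_sum, Matrix.mulVec, dotProduct]
  apply Finset.sum_congr rfl
  intro l _
  rw [map_mul, eval_C, eval_X]

lemma lf_ne_zero {φ : Matrix (Fin m) (Fin m) ℂ} (h : φ.det ≠ 0) (j : Fin m) : lf φ j ≠ 0 := by
  intro h0
  have h1 := eval_lf φ j (φ⁻¹.mulVec (Pi.single j 1))
  rw [h0, map_zero, Matrix.mulVec_mulVec, Matrix.mul_nonsing_inv _ (isUnit_iff_ne_zero.2 h),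
    Matrix.one_mulVec, Pi.single_eq_same] at h1
  exact one_ne_zero h1.symm

end Pool.Agent.Helper22.CP
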